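import Mathlib

/-! Random compositions of maps of a compact space with a trap: the probability of not being
trapped is exponentially small. -/

set_option autoImplicit false

open Topology Filter Set MeasureTheory
open scoped ENNReal

namespace Pool.Agent.Q77.RR

variable {S Λ : Type*}

/-- the action of a word -/
def act (g : Λ → S → S) (l : List Λ) (x : S) : S := l.foldl (fun x t => g t x) x

theorem act_cons (g : Λ → S → S) (t : Λ) (l : List Λ) (x : S) :
    act g (t :: l) x = act g l (g t x) := rfl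

theorem act_append (g : Λ → S → S) (l l' : List Λ) (x : S) :
    act g (l ++ l') x = act g l' (act g l x) := by
  unfold act; rw [List.foldl_append]

theorem act_snoc (g : Λ → S → S) (l : List Λ) (t : Λ) (x : S) :
    act g (l ++ [t]) x = g t (act g l x) := by
  rw [act_append]; rfl

section

variable [MeasurableSpace Λ] {g : Λ → S → S} {W : Set S} {U : Set Λ} {ν : Measure Λ}

/-- the probability of not being trapped after `n` steps -/
noncomputable def un (g : Λ → S → S) (W : Set S) (ν : Measure Λ) : ℕ → S → ℝ≥0∞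
  | 0 => Wᶜ.indicator 1
  | n + 1 => fun x => ∫⁻ t, un g W ν n (g t x) ∂ν

theorem un_le_one [IsProbabilityMeasure ν] (n : ℕ) (x : S) : un g W ν n x ≤ 1 := by
  induction n generalizing x with
  | zero => exact Set.indicator_le_self' (fun _ _ => zero_le) x
  | succ n ih =>
    calc ∫⁻ t, un g W ν n (g t x) ∂ν ≤ ∫⁻ _, 1 ∂ν := lintegral_mono fun t => ih _
      _ = 1 := by simp

theorem un_zero_of_mem (hνU : ν Uᶜ = 0) (hstep : ∀ z ∈ W, ∀ t ∈ U, g t z ∈ W) (n : ℕ) {x : S}
    (hx : x ∈ W) : un g W ν n x = 0 := by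
  induction n generalizing x with
  | zero => exact Set.indicator_of_notMem (not_not.2 hx) _
  | succ n ih =>
    have h1 : ∀ᵐ t ∂ν, un g W ν n (g t x) = 0 := by
      have h2 : ∀ᵐ t ∂ν, t ∈ U := by
        rw [ae_iff]
        exact hνU
      filter_upwards [h2] with t ht
      exact ih (hstep x hx t ht)
    exact (lintegral_congr_ae h1).trans (by simp)

theorem un_anti [IsProbabilityMeasure ν] (hνU : ν Uᶜ = 0)
    (hstep : ∀ z ∈ W, ∀ t ∈ U, g t z ∈ W) : Antitone (un g W ν) := by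
  apply antitone_nat_of_succ_le
  intro n
  induction n with
  | zero =>
    intro x
    by_cases hx : x ∈ W
    · rw [un_zero_of_mem hνU hstep 1 hx]; exact zero_le
    · have : un g W ν 0 x = 1 := Set.indicator_of_mem hx _
      rw [this]
      exact un_le_one 1 x
  | succ n ih =>
    intro x
    exact lintegral_mono fun t => ih _

end

section

variable [TopologicalSpace S] [TopologicalSpace Λ] [MeasurableSpace Λ] [BorelSpace Λ]
  {g : Λ → S → S} {W : Set S} {U : Set Λ} {ν : Measure Λ}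

/-- locally uniform probability of being trapped, from a steering word -/
theorem un_local [IsProbabilityMeasure ν]
    (hg : ∀ t ∈ U, ∀ x, ContinuousAt (fun q : S × Λ => g q.2 q.1) (x, t))
    (hWo : IsOpen W) (hU : IsOpen U)
    (hνU : ν Uᶜ = 0) (hνo : ∀ V : Set Λ, IsOpen V → V.Nonempty → V ⊆ U → ν V ≠ 0)
    (hstep : ∀ z ∈ W, ∀ t ∈ U, g t z ∈ W) (l : List Λ) (hl : ∀ t ∈ l, t ∈ U) {x : S}
    (hx : act g l x ∈ W) :
    ∃ p : ℝ≥0∞, p ≠ 0 ∧ p ≤ 1 ∧ ∀ᶠ y in 𝓝 x, un g W ν l.length y ≤ 1 - p := by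
  induction l generalizing x with
  | nil =>
    refine ⟨1, one_ne_zero, le_rfl, ?_⟩
    filter_upwards [hWo.mem_nhds hx] with y hy
    rw [un_zero_of_mem hνU hstep _ hy]
    exact zero_le
  | cons t l ih =>
    rw [act_cons] at hx
    obtain ⟨p, hp0, hp1, hp⟩ := ih (fun s hs => hl s (List.mem_cons_of_mem _ hs)) hx
    have hcont := hg t (hl t (by simp)) x
    have h1 : ∀ᶠ q : S × Λ in 𝓝 (x, t), un g W ν l.length (g q.2 q.1) ≤ 1 - p :=
      hcont.eventually hp
    rw [nhds_prod_eq] at h1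
    obtain ⟨A, hA, B, hB, hAB⟩ := Filter.eventually_prod_iff.1 h1
    obtain ⟨V, hVB, hVo, htV⟩ := _root_.mem_nhds_iff.1 hB
    set V' := V ∩ U with hV'
    have hV'o : IsOpen V' := hVo.inter hU
    have hV'ne : ν V' ≠ 0 := hνo V' hV'o ⟨t, htV, hl t (by simp)⟩ inter_subset_right
    have hV'1 : ν V' ≤ 1 := prob_le_one
    refine ⟨p * ν V', mul_ne_zero hp0 hV'ne, mul_le_one' hp1 hV'1, ?_⟩
    filter_upwards [hA] with y hy
    have hbound : ∀ s, un g W ν l.length (g s y) ≤
        V'.indicator (fun _ => 1 - p) s + V'ᶜ.indicator (fun _ => 1) s := by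
      intro s
      by_cases hs : s ∈ V'
      · rw [Set.indicator_of_mem hs, Set.indicator_of_notMem (not_not.2 hs), add_zero]
        exact hAB hy (hVB hs.1)
      · rw [Set.indicator_of_notMem hs, Set.indicator_of_mem (show s ∈ V'ᶜ from hs), zero_add]
        exact un_le_one _ _
    calc un g W ν (t :: l).length y = ∫⁻ s, un g W ν l.length (g s y) ∂ν := rfl
      _ ≤ ∫⁻ s, (V'.indicator (fun _ => 1 - p) s + V'ᶜ.indicator (fun _ => 1) s) ∂ν :=
          lintegral_mono hbound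
      _ = (1 - p) * ν V' + ν V'ᶜ := by
          rw [lintegral_add_left (measurable_const.indicator hV'o.measurableSet),
            lintegral_indicator hV'o.measurableSet, lintegral_indicator hV'o.measurableSet.compl]
          simp
      _ = 1 - p * ν V' := by
          have hfin : ν V' ≠ ∞ := measure_ne_top _ _
          have hpfin : p ≠ ∞ := ne_top_of_le_ne_top ENNReal.one_ne_top hp1
          rw [prob_compl_eq_one_sub hV'o.measurableSet]
          have e1 : (1 - p) * ν V' = ν V' - p * ν V' := by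
            rw [ENNReal.sub_mul (fun _ _ => hfin), one_mul]
          rw [e1]
          have h3 : p * ν V' ≤ ν V' := by
            calc p * ν V' ≤ 1 * ν V' := by gcongr
              _ = ν V' := one_mul _
          have h4 : p * ν V' ≠ ∞ := ENNReal.mul_ne_top hpfin hfin
          refine ENNReal.eq_sub_of_add_eq h4 ?_
          rw [add_right_comm, tsub_add_cancel_of_le h3, add_tsub_cancel_of_le hV'1]

/-- **Uniform trapping.** -/
theorem un_unif [CompactSpace S] [IsProbabilityMeasure ν]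
    (hg : ∀ t ∈ U, ∀ x, ContinuousAt (fun q : S × Λ => g q.2 q.1) (x, t))
    (hWo : IsOpen W) (hU : IsOpen U)
    (hνU : ν Uᶜ = 0) (hνo : ∀ V : Set Λ, IsOpen V → V.Nonempty → V ⊆ U → ν V ≠ 0)
    (hstep : ∀ z ∈ W, ∀ t ∈ U, g t z ∈ W)
    (hst : ∀ x, ∃ l : List Λ, (∀ t ∈ l, t ∈ U) ∧ act g l x ∈ W) :
    ∃ (ℓ : ℕ) (p : ℝ≥0∞), p ≠ 0 ∧ p ≤ 1 ∧ ∀ x, un g W ν ℓ x ≤ 1 - p := by
  choose l hlU hlW using hst
  choose p hp0 hp1 hp using fun x =>
    un_local (ν := ν) hg hWo hU hνU hνo hstep (l x) (hlU x) (hlW x)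
  obtain ⟨t, -, ht⟩ := (isCompact_univ (X := S)).elim_nhds_subcover
    (fun x => {y | un g W ν (l x).length y ≤ 1 - p x}) (fun x _ => hp x)
  have hanti := un_anti (g := g) (W := W) hνU hstep
  by_cases htn : t.Nonempty
  · refine ⟨t.sup fun x => (l x).length, t.inf' htn p, ?_, ?_, ?_⟩
    · obtain ⟨y, hy, hye⟩ := t.exists_mem_eq_inf' htn p
      rw [hye]; exact hp0 y
    · obtain ⟨y, hy⟩ := htn
      exact (Finset.inf'_le p hy).trans (hp1 y)
    · intro x
      obtain ⟨y, hy, hxy⟩ := mem_iUnion₂.1 (ht (mem_univ x))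
      have h1 : un g W ν (t.sup fun x => (l x).length) x ≤ un g W ν (l y).length x :=
        hanti (Finset.le_sup (f := fun x => (l x).length) hy) x
      refine h1.trans (le_trans hxy ?_)
      exact tsub_le_tsub_left (Finset.inf'_le p hy) 1
  · rw [Finset.not_nonempty_iff_eq_empty] at htn
    refine ⟨0, 1, one_ne_zero, le_rfl, fun x => ?_⟩
    have := ht (mem_univ x)
    rw [htn] at this
    simp at this

end

section

variable [MeasurableSpace Λ] {g : Λ → S → S} {W : Set S} {U : Set Λ} {ν : Measure Λ}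

theorem un_mul [IsProbabilityMeasure ν]
    (hνU : ν Uᶜ = 0) (hstep : ∀ z ∈ W, ∀ t ∈ U, g t z ∈ W) {ℓ : ℕ} {q : ℝ≥0∞} (hq1 : q ≠ ∞)
    (hq : ∀ x, un g W ν ℓ x ≤ q) (m : ℕ) : ∀ x, un g W ν (m + ℓ) x ≤ q * un g W ν m x := by
  induction m with
  | zero =>
    intro x
    rw [zero_add]
    by_cases hx : x ∈ W
    · rw [un_zero_of_mem hνU hstep ℓ hx]; exact zero_le
    · have : un g W ν 0 x = 1 := Set.indicator_of_mem hx _
      rw [this, mul_one]
      exact hq x
  | succ m ih =>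
    intro x
    have e : m + 1 + ℓ = (m + ℓ) + 1 := by ring
    rw [e]
    calc un g W ν (m + ℓ + 1) x = ∫⁻ t, un g W ν (m + ℓ) (g t x) ∂ν := rfl
      _ ≤ ∫⁻ t, q * un g W ν m (g t x) ∂ν := lintegral_mono fun t => ih _
      _ = q * ∫⁻ t, un g W ν m (g t x) ∂ν := lintegral_const_mul' _ _ hq1

theorem un_pow [IsProbabilityMeasure ν]
    (hνU : ν Uᶜ = 0) (hstep : ∀ z ∈ W, ∀ t ∈ U, g t z ∈ W) {ℓ : ℕ} {q : ℝ≥0∞} (hq1 : q ≠ ∞)
    (hq : ∀ x, un g W ν ℓ x ≤ q) (k : ℕ) (x : S) : un g W ν (k * ℓ) x ≤ q ^ k := by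
  induction k with
  | zero => simpa using un_le_one 0 x
  | succ k ih =>
    rw [Nat.succ_mul, pow_succ, mul_comm (q ^ k)]
    exact (un_mul hνU hstep hq1 hq (k * ℓ) x).trans (by gcongr)

end

/-- the exponential estimate -/
theorem un_exp [TopologicalSpace S] [CompactSpace S] [TopologicalSpace Λ] [MeasurableSpace Λ]
    [BorelSpace Λ] {g : Λ → S → S} {W : Set S} {U : Set Λ} {ν : Measure Λ} [IsProbabilityMeasure ν]
    (hg : ∀ t ∈ U, ∀ x, ContinuousAt (fun q : S × Λ => g q.2 q.1) (x, t))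
    (hWo : IsOpen W) (hU : IsOpen U)
    (hνU : ν Uᶜ = 0) (hνo : ∀ V : Set Λ, IsOpen V → V.Nonempty → V ⊆ U → ν V ≠ 0)
    (hstep : ∀ z ∈ W, ∀ t ∈ U, g t z ∈ W)
    (hst : ∀ x, ∃ l : List Λ, (∀ t ∈ l, t ∈ U) ∧ act g l x ∈ W) :
    ∃ C ρ : ℝ, 0 < C ∧ 0 < ρ ∧ ρ < 1 ∧ ∀ (n : ℕ) (x : S),
      un g W ν n x ≤ ENNReal.ofReal (C * ρ ^ n) := by
  obtain ⟨ℓ₀, p, hp0, hp1, hp⟩ := un_unif (ν := ν) hg hWo hU hνU hνo hstep hst
  have hanti := un_anti (g := g) (W := W) hνU hstep
  -- make the length positive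
  set ℓ := ℓ₀ + 1 with hℓ
  have hpℓ : ∀ x, un g W ν ℓ x ≤ 1 - p := fun x => (hanti (Nat.le_succ ℓ₀) x).trans (hp x)
  have hpt : p ≠ ∞ := ne_top_of_le_ne_top ENNReal.one_ne_top hp1
  have h1p : 1 - p ≠ ∞ := ne_top_of_le_ne_top ENNReal.one_ne_top tsub_le_self
  set s : ℝ := p.toReal with hs
  have hs0 : 0 < s := ENNReal.toReal_pos hp0 hpt
  have hs1 : s ≤ 1 := by
    have := ENNReal.toReal_mono ENNReal.one_ne_top hp1
    simpa using this
  set q : ℝ := 1 - s / 2 with hq
  have hq0 : 0 < q := by rw [hq]; linarith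
  have hq1 : q < 1 := by rw [hq]; linarith
  have hqp : 1 - p ≤ ENNReal.ofReal q := by
    have e : 1 - p = ENNReal.ofReal (1 - s) := by
      rw [ENNReal.ofReal_sub _ hs0.le, ENNReal.ofReal_one, hs, ENNReal.ofReal_toReal hpt]
    rw [e]
    exact ENNReal.ofReal_le_ofReal (by rw [hq]; linarith)
  set ρ : ℝ := q ^ ((ℓ : ℝ)⁻¹) with hρ
  have hℓ0 : (0 : ℝ) < ℓ := by rw [hℓ]; positivity
  have hρ0 : 0 < ρ := Real.rpow_pos_of_pos hq0 _
  have hρ1 : ρ < 1 := Real.rpow_lt_one hq0.le hq1 (by positivity)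
  have hρℓ : ρ ^ ℓ = q := by
    rw [hρ, ← Real.rpow_natCast, ← Real.rpow_mul hq0.le, inv_mul_cancel₀ hℓ0.ne', Real.rpow_one]
  refine ⟨q⁻¹, ρ, inv_pos.2 hq0, hρ0, hρ1, fun n x => ?_⟩
  have h1 : n / ℓ * ℓ ≤ n := Nat.div_mul_le_self n ℓ
  have h2 : n < (n / ℓ + 1) * ℓ := by
    have := Nat.lt_div_mul_add (a := n) (b := ℓ) (by omega)
    rw [add_mul, one_mul]; exact this
  calc un g W ν n x ≤ un g W ν (n / ℓ * ℓ) x := hanti h1 x
    _ ≤ (1 - p) ^ (n / ℓ) := un_pow hνU hstep h1p hpℓ _ x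
    _ ≤ (ENNReal.ofReal q) ^ (n / ℓ) := by gcongr
    _ = ENNReal.ofReal (q ^ (n / ℓ)) := (ENNReal.ofReal_pow hq0.le _).symm
    _ ≤ ENNReal.ofReal (q⁻¹ * ρ ^ n) := by
        apply ENNReal.ofReal_le_ofReal
        have h3 : ρ ^ ((n / ℓ + 1) * ℓ) ≤ ρ ^ n := pow_le_pow_of_le_one hρ0.le hρ1.le h2.le
        have h4 : ρ ^ ((n / ℓ + 1) * ℓ) = q * q ^ (n / ℓ) := by
          rw [mul_comm (n / ℓ + 1), pow_mul, hρℓ, pow_succ]; ring
        rw [h4] at h3
        rw [le_inv_mul_iff₀ hq0]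
        exact h3

/-! ### Product measures -/

section

variable [TopologicalSpace S] [TopologicalSpace Λ] [MeasurableSpace Λ] [BorelSpace Λ]
  [SecondCountableTopology Λ] {g : Λ → S → S} {W : Set S} {U : Set Λ} {ν : Measure Λ}

theorem act_cont (hg : ∀ t ∈ U, ∀ x, ContinuousAt (fun q : S × Λ => g q.2 q.1) (x, t)) (n : ℕ) :
    ∀ (t : Fin n → Λ), (∀ i, t i ∈ U) → ∀ x : S,
      ContinuousAt (fun q : S × (Fin n → Λ) => act g (List.ofFn q.2) q.1) (x, t) := by
  induction n with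
  | zero =>
    intro t _ x
    have : (fun q : S × (Fin 0 → Λ) => act g (List.ofFn q.2) q.1) = Prod.fst := by
      funext q; rw [List.ofFn_zero]; rfl
    rw [this]
    exact continuousAt_fst
  | succ n ih =>
    intro t ht x
    have e : (fun q : S × (Fin (n + 1) → Λ) => act g (List.ofFn q.2) q.1) =
        (fun q : S × (Fin n → Λ) => act g (List.ofFn q.2) q.1) ∘
          (fun q : S × (Fin (n + 1) → Λ) => (g (q.2 0) q.1, fun i : Fin n => q.2 i.succ)) := by
      funext q; rw [List.ofFn_succ]; rfl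
    rw [e]
    refine ContinuousAt.comp ?_ ?_
    · exact ih (fun i => t i.succ) (fun i => ht _) _
    · refine ContinuousAt.prodMk ?_ ?_
      · have h1 : ContinuousAt (fun q : S × (Fin (n + 1) → Λ) => (q.1, q.2 0)) (x, t) := by
          fun_prop
        exact ContinuousAt.comp (f := fun q : S × (Fin (n + 1) → Λ) => (q.1, q.2 0))
          (g := fun q : S × Λ => g q.2 q.1) (hg (t 0) (ht 0) x) h1
      · exact Continuous.continuousAt (by fun_prop)

/-- the set of the tuples which do not trap `x` -/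
def bad (g : Λ → S → S) (W : Set S) (U : Set Λ) (n : ℕ) (x : S) : Set (Fin n → Λ) :=
  {t | ¬ ((∀ i, t i ∈ U) ∧ act g (List.ofFn t) x ∈ W)}

theorem pi_split [IsProbabilityMeasure ν] (n : ℕ) {T : Set (Fin (n + 1) → Λ)}
    {T' : Set (Λ × (Fin n → Λ))} (hT' : MeasurableSet T')
    (h : ∀ t : Fin (n + 1) → Λ, t ∈ T ↔ (t 0, fun i : Fin n => t i.succ) ∈ T') :
    Measure.pi (fun _ : Fin (n + 1) => ν) T =
      ∫⁻ s, Measure.pi (fun _ : Fin n => ν) (Prod.mk s ⁻¹' T') ∂ν := by
  have hmp := measurePreserving_piFinSuccAbove (fun _ : Fin (n + 1) => ν) 0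
  have hpre : T = (MeasurableEquiv.piFinSuccAbove (fun _ : Fin (n + 1) => Λ) 0) ⁻¹' T' := by
    ext t
    rw [h]
    rfl
  rw [hpre, hmp.measure_preimage hT'.nullMeasurableSet, Measure.prod_apply hT']

theorem pi_le [IsProbabilityMeasure ν]
    (hg : ∀ t ∈ U, ∀ x, ContinuousAt (fun q : S × Λ => g q.2 q.1) (x, t))
    (hWo : IsOpen W) (hU : IsOpen U) (hνU : ν Uᶜ = 0) (n : ℕ) (x : S) :
    Measure.pi (fun _ : Fin n => ν) (bad g W U n x) ≤ un g W ν n x := by
  induction n generalizing x with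
  | zero =>
    by_cases hx : x ∈ W
    · have h1 : bad g W U 0 x = ∅ := by
        ext t
        simp only [bad, mem_ofPred_eq, mem_empty_iff_false, iff_false, not_not]
        exact ⟨fun i => i.elim0, by rw [List.ofFn_zero]; exact hx⟩
      rw [h1, measure_empty]
      exact zero_le
    · have h1 : un g W ν 0 x = 1 := Set.indicator_of_mem hx _
      rw [h1]
      exact prob_le_one
  | succ n ih =>
    set T' : Set (Λ × (Fin n → Λ)) :=
      {q | ¬ ((q.1 ∈ U ∧ ∀ i, q.2 i ∈ U) ∧ act g (List.ofFn q.2) (g q.1 x) ∈ W)} with hT'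
    have hopen : IsOpen {q : Λ × (Fin n → Λ) |
        (q.1 ∈ U ∧ ∀ i, q.2 i ∈ U) ∧ act g (List.ofFn q.2) (g q.1 x) ∈ W} := by
      rw [isOpen_iff_mem_nhds]
      rintro ⟨s, t⟩ ⟨⟨hs, ht⟩, hW⟩
      have h1 : ∀ᶠ q : Λ × (Fin n → Λ) in 𝓝 (s, t), q.1 ∈ U :=
        (hU.preimage continuous_fst).mem_nhds hs
      have h2 : ∀ᶠ q : Λ × (Fin n → Λ) in 𝓝 (s, t), ∀ i, q.2 i ∈ U := by
        rw [eventually_all]
        intro i
        exact (hU.preimage ((continuous_apply i).comp continuous_snd)).mem_nhds (ht i)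
      have h3 : ContinuousAt (fun q : Λ × (Fin n → Λ) => act g (List.ofFn q.2) (g q.1 x)) (s, t) := by
        have h4 : ContinuousAt (fun q : Λ × (Fin n → Λ) => (g q.1 x, q.2)) (s, t) := by
          refine ContinuousAt.prodMk ?_ continuousAt_snd
          have h5 : ContinuousAt (fun q : Λ × (Fin n → Λ) => (x, q.1)) (s, t) := by fun_prop
          exact ContinuousAt.comp (f := fun q : Λ × (Fin n → Λ) => (x, q.1))
            (g := fun q : S × Λ => g q.2 q.1) (hg s hs x) h5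
        exact ContinuousAt.comp (f := fun q : Λ × (Fin n → Λ) => (g q.1 x, q.2))
          (g := fun q : S × (Fin n → Λ) => act g (List.ofFn q.2) q.1) (act_cont hg n t ht _) h4
      filter_upwards [h1, h2, h3.eventually (hWo.mem_nhds hW)] with q hq1 hq2 hq3
      exact ⟨⟨hq1, hq2⟩, hq3⟩
    have hmeas : MeasurableSet T' := hopen.measurableSet.compl
    rw [pi_split n hmeas (T := bad g W U (n + 1) x) (fun t => by
      simp only [bad, hT', mem_ofPred_eq]
      rw [Fin.forall_fin_succ, List.ofFn_succ, act_cons])]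
    have hae : ∀ᵐ s ∂ν, s ∈ U := by
      rw [ae_iff]
      exact hνU
    refine lintegral_mono_ae ?_
    filter_upwards [hae] with s hs
    refine le_trans (measure_mono ?_) (ih (g s x))
    intro t ht
    simp only [hT', mem_preimage, mem_ofPred_eq] at ht
    simp only [bad, mem_ofPred_eq]
    intro h
    exact ht ⟨⟨hs, h.1⟩, h.2⟩

/-- critical points which depend on the first letter -/
theorem crit_le [IsProbabilityMeasure ν] {Q : Type*} [TopologicalSpace Q] [CompactSpace Q]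
    (c : Q → S) (hc : Continuous c) (R : Λ → Q → Prop)
    (hR : ∀ t ∈ U, ∀ p, ¬ R t p → ∀ᶠ q : Q × Λ in 𝓝 (p, t), ¬ R q.2 q.1) {N : ℕ}
    (hN : ∀ t ∈ U, ∃ V : Finset S, V.card ≤ N ∧ ∀ p, R t p → c p ∈ V)
    (hg : ∀ t ∈ U, ∀ x, ContinuousAt (fun q : S × Λ => g q.2 q.1) (x, t))
    (hWo : IsOpen W) (hU : IsOpen U) (hνU : ν Uᶜ = 0) (n : ℕ) {b : ℝ≥0∞}
    (hb : ∀ x, un g W ν n x ≤ b) :
    Measure.pi (fun _ : Fin (n + 1) => ν) {t | ¬ ((∀ i, t i ∈ U) ∧
      ∀ p, R (t 0) p → act g (List.ofFn t) (c p) ∈ W)} ≤ N * b := by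
  set T' : Set (Λ × (Fin n → Λ)) :=
    {q | ¬ ((q.1 ∈ U ∧ ∀ i, q.2 i ∈ U) ∧
      ∀ p, R q.1 p → act g (List.ofFn q.2) (g q.1 (c p)) ∈ W)} with hT'
  have hopen : IsOpen {q : Λ × (Fin n → Λ) |
      (q.1 ∈ U ∧ ∀ i, q.2 i ∈ U) ∧
      ∀ p, R q.1 p → act g (List.ofFn q.2) (g q.1 (c p)) ∈ W} := by
    rw [isOpen_iff_mem_nhds]
    rintro ⟨s, t⟩ ⟨⟨hs, ht⟩, hW⟩
    simp only at hs ht hW
    have h1 : ∀ᶠ q : Λ × (Fin n → Λ) in 𝓝 (s, t), q.1 ∈ U :=
      (hU.preimage continuous_fst).mem_nhds hs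
    have h2 : ∀ᶠ q : Λ × (Fin n → Λ) in 𝓝 (s, t), ∀ i, q.2 i ∈ U := by
      rw [eventually_all]
      intro i
      exact (hU.preimage ((continuous_apply i).comp continuous_snd)).mem_nhds (ht i)
    have h3 : ∀ᶠ q : Λ × (Fin n → Λ) in 𝓝 (s, t), ∀ p ∈ (univ : Set Q),
        (R q.1 p → act g (List.ofFn q.2) (g q.1 (c p)) ∈ W) := by
      refine isCompact_univ.eventually_forall_of_forall_eventually
        (P := fun (q : Λ × (Fin n → Λ)) p =>
          (R q.1 p → act g (List.ofFn q.2) (g q.1 (c p)) ∈ W)) ?_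
      intro p _
      by_cases hp : R s p
      · have hW' := hW p hp
        have h4 : ContinuousAt (fun z : (Λ × (Fin n → Λ)) × Q =>
            act g (List.ofFn z.1.2) (g z.1.1 (c z.2))) ((s, t), p) := by
          have h5 : ContinuousAt (fun z : (Λ × (Fin n → Λ)) × Q => (g z.1.1 (c z.2), z.1.2))
              ((s, t), p) := by
            refine ContinuousAt.prodMk ?_ (Continuous.continuousAt (by fun_prop))
            have h6 : ContinuousAt (fun z : (Λ × (Fin n → Λ)) × Q => (c z.2, z.1.1))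
                ((s, t), p) := Continuous.continuousAt (by fun_prop)
            exact ContinuousAt.comp (f := fun z : (Λ × (Fin n → Λ)) × Q => (c z.2, z.1.1))
              (g := fun q : S × Λ => g q.2 q.1) (hg s hs (c p)) h6
          exact ContinuousAt.comp (f := fun z : (Λ × (Fin n → Λ)) × Q => (g z.1.1 (c z.2), z.1.2))
            (g := fun q : S × (Fin n → Λ) => act g (List.ofFn q.2) q.1) (act_cont hg n t ht _) h5
        filter_upwards [h4.eventually (hWo.mem_nhds hW')] with z hz _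
        exact hz
      · have h4 : ContinuousAt (fun z : (Λ × (Fin n → Λ)) × Q => (z.2, z.1.1)) ((s, t), p) :=
          Continuous.continuousAt (by fun_prop)
        filter_upwards [h4.eventually (hR s hs p hp)] with z hz hz'
        exact absurd hz' hz
    filter_upwards [h1, h2, h3] with q hq1 hq2 hq3
    exact ⟨⟨hq1, hq2⟩, fun p hp => hq3 p (mem_univ p) hp⟩
  have hmeas : MeasurableSet T' := hopen.measurableSet.compl
  rw [pi_split n hmeas (fun t => by
    simp only [hT', mem_ofPred_eq]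
    rw [Fin.forall_fin_succ, List.ofFn_succ]
    rfl)]
  have hae : ∀ᵐ s ∂ν, s ∈ U := by
    rw [ae_iff]
    exact hνU
  have hle : ∀ᵐ s ∂ν, Measure.pi (fun _ : Fin n => ν) (Prod.mk s ⁻¹' T') ≤ N * b := by
    filter_upwards [hae] with s hs
    obtain ⟨V, hV, hVc⟩ := hN s hs
    have hsub : Prod.mk s ⁻¹' T' ⊆ {t : Fin n → Λ | ¬ ∀ i, t i ∈ U} ∪
        ⋃ v ∈ V, bad g W U n (g s v) := by
      intro t ht
      simp only [hT', mem_preimage, mem_ofPred_eq] at ht
      rw [mem_union]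
      by_cases hall : ∀ i, t i ∈ U
      · right
        have h7 : ¬ ∀ p, R s p → act g (List.ofFn t) (g s (c p)) ∈ W :=
          fun h => ht ⟨⟨hs, hall⟩, h⟩
        push Not at h7
        obtain ⟨p, hp1, hp2⟩ := h7
        rw [mem_iUnion₂]
        exact ⟨c p, hVc p hp1, fun h => hp2 h.2⟩
      · left
        exact hall
    have hnull : Measure.pi (fun _ : Fin n => ν) {t : Fin n → Λ | ¬ ∀ i, t i ∈ U} = 0 := by
      have e : {t : Fin n → Λ | ¬ ∀ i, t i ∈ U} = ⋃ i : Fin n, {t : Fin n → Λ | t i ∈ Uᶜ} := by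
        ext t
        simp
      rw [e, measure_iUnion_null_iff]
      intro i
      exact Measure.pi_eval_preimage_null _ hνU
    calc _ ≤ Measure.pi (fun _ : Fin n => ν) {t : Fin n → Λ | ¬ ∀ i, t i ∈ U} +
          Measure.pi (fun _ : Fin n => ν) (⋃ v ∈ V, bad g W U n (g s v)) :=
          (measure_mono hsub).trans (measure_union_le _ _)
      _ ≤ 0 + ∑ v ∈ V, Measure.pi (fun _ : Fin n => ν) (bad g W U n (g s v)) := by
          rw [hnull]
          gcongr
          exact measure_biUnion_finset_le _ _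
      _ ≤ 0 + ∑ v ∈ V, b := by
          gcongr with v hv
          exact (pi_le hg hWo hU hνU n _).trans (hb _)
      _ ≤ N * b := by
          rw [zero_add, Finset.sum_const, nsmul_eq_mul]
          gcongr
  calc _ ≤ ∫⁻ s, N * b ∂ν := lintegral_mono_ae hle
    _ = N * b := by simp

/-- rotating the coordinates preserves the measure -/
theorem rot_eq [IsProbabilityMeasure ν] (n : ℕ) (i : Fin (n + 1))
    (P : Λ → List Λ → Prop) :
    Measure.pi (fun _ : Fin (n + 1) => ν)
      {t | P (t i) ((List.ofFn t).drop i ++ (List.ofFn t).take i)} =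
    Measure.pi (fun _ : Fin (n + 1) => ν) {t | P (t 0) (List.ofFn t)} := by
  set e : Fin (n + 1) ≃ Fin (n + 1) := Equiv.addRight i with he
  have hrot : ∀ t : Fin (n + 1) → Λ, (List.ofFn t).drop i ++ (List.ofFn t).take i =
      List.ofFn (fun j => t (e j)) := by
    intro t
    rw [← List.rotate_eq_drop_append_take (by simpa using i.2.le)]
    apply List.ext_getElem
    · simp
    · intro k h1 h2
      rw [List.getElem_rotate, List.getElem_ofFn, List.getElem_ofFn]
      congr 1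
      apply Fin.ext
      simp [he, Fin.val_add]
  have hmp : MeasurePreserving (MeasurableEquiv.piCongrLeft (fun _ : Fin (n + 1) => Λ) e.symm)
      (Measure.pi fun _ : Fin (n + 1) => ν) (Measure.pi fun _ : Fin (n + 1) => ν) :=
    measurePreserving_piCongrLeft (fun _ : Fin (n + 1) => ν) e.symm
  have hpre : {t : Fin (n + 1) → Λ | P (t i) ((List.ofFn t).drop i ++ (List.ofFn t).take i)} =
      (MeasurableEquiv.piCongrLeft (fun _ : Fin (n + 1) => Λ) e.symm) ⁻¹'
        {t | P (t 0) (List.ofFn t)} := by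
    ext t
    simp only [mem_ofPred_eq, mem_preimage]
    have : (fun j => t (e j)) =
        (MeasurableEquiv.piCongrLeft (fun _ : Fin (n + 1) => Λ) e.symm) t := by
      funext j
      obtain ⟨j', rfl⟩ : ∃ j', j = e.symm j' := ⟨e j, by simp⟩
      rw [MeasurableEquiv.piCongrLeft_apply_apply, Equiv.apply_symm_apply]
    rw [hrot, ← this]
    have e0 : e 0 = i := by simp [he]
    simp only [e0]
  rw [hpre, hmp.measure_preimage_equiv]

/-- the union bound over all starting times -/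
theorem union_le [IsProbabilityMeasure ν] {Q : Type*} [TopologicalSpace Q] [CompactSpace Q]
    (c : Q → S) (hc : Continuous c) (R : Λ → Q → Prop)
    (hR : ∀ t ∈ U, ∀ p, ¬ R t p → ∀ᶠ q : Q × Λ in 𝓝 (p, t), ¬ R q.2 q.1) {N : ℕ}
    (hN : ∀ t ∈ U, ∃ V : Finset S, V.card ≤ N ∧ ∀ p, R t p → c p ∈ V)
    (hg : ∀ t ∈ U, ∀ x, ContinuousAt (fun q : S × Λ => g q.2 q.1) (x, t))
    (hWo : IsOpen W) (hU : IsOpen U) (hνU : ν Uᶜ = 0) {C ρ : ℝ} (hC : 0 < C) (hρ : 0 < ρ)
    (hρ1 : ρ < 1) (hb : ∀ (n : ℕ) (x : S), un g W ν n x ≤ ENNReal.ofReal (C * ρ ^ n)) :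
    ∃ C' ρ' : ℝ, 0 < C' ∧ 0 < ρ' ∧ ρ' < 1 ∧ ∀ n : ℕ,
      Measure.pi (fun _ : Fin n => ν) {t | ¬ ((∀ i, t i ∈ U) ∧ ∀ i : Fin n,
        ∀ p, R (t i) p → act g ((List.ofFn t).drop i ++ (List.ofFn t).take i) (c p) ∈ W)} ≤
      ENNReal.ofReal (C' * ρ' ^ n) := by
  have hbad : ∀ n : ℕ, Measure.pi (fun _ : Fin n => ν) {t | ¬ ((∀ i, t i ∈ U) ∧ ∀ i : Fin n,
        ∀ p, R (t i) p → act g ((List.ofFn t).drop i ++ (List.ofFn t).take i) (c p) ∈ W)} ≤
      ENNReal.ofReal (n * N * (C * ρ ^ (n - 1))) := by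
    intro n
    obtain _ | n := n
    · have : {t : Fin 0 → Λ | ¬ ((∀ i, t i ∈ U) ∧ ∀ i : Fin 0,
        ∀ p, R (t i) p → act g ((List.ofFn t).drop i ++ (List.ofFn t).take i) (c p) ∈ W)} = ∅ := by
        ext t
        simp only [mem_ofPred_eq, mem_empty_iff_false, iff_false, not_not]
        exact ⟨fun i => i.elim0, fun i => i.elim0⟩
      rw [this, measure_empty]
      exact zero_le
    · have hsub : {t : Fin (n + 1) → Λ | ¬ ((∀ i, t i ∈ U) ∧ ∀ i : Fin (n + 1),
          ∀ p, R (t i) p → act g ((List.ofFn t).drop i ++ (List.ofFn t).take i) (c p) ∈ W)} ⊆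
          ⋃ i : Fin (n + 1), {t : Fin (n + 1) → Λ |
            ¬ ((∀ s ∈ (List.ofFn t).drop i ++ (List.ofFn t).take i, s ∈ U) ∧
            ∀ p, R (t i) p → act g ((List.ofFn t).drop i ++ (List.ofFn t).take i) (c p) ∈ W)} := by
        intro t ht
        by_contra hnot
        apply ht
        rw [mem_iUnion, not_exists] at hnot
        simp only [mem_ofPred_eq, not_not] at hnot
        refine ⟨fun i => (hnot 0).1 _ ?_, fun i => (hnot i).2⟩
        have h0 : ((0 : Fin (n + 1)) : ℕ) = 0 := rfl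
        rw [h0, List.drop_zero, List.take_zero, List.append_nil, List.mem_ofFn']
        exact ⟨i, rfl⟩
      calc _ ≤ ∑ i : Fin (n + 1), Measure.pi (fun _ : Fin (n + 1) => ν) {t : Fin (n + 1) → Λ |
            ¬ ((∀ s ∈ (List.ofFn t).drop i ++ (List.ofFn t).take i, s ∈ U) ∧
            ∀ p, R (t i) p → act g ((List.ofFn t).drop i ++ (List.ofFn t).take i) (c p) ∈ W)} :=
            (measure_mono hsub).trans (measure_iUnion_fintype_le _ _)
        _ ≤ ∑ i : Fin (n + 1), N * ENNReal.ofReal (C * ρ ^ n) := by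
            gcongr with i
            rw [rot_eq n i (fun a l => ¬ ((∀ s ∈ l, s ∈ U) ∧ ∀ p, R a p → act g l (c p) ∈ W))]
            refine le_trans (measure_mono ?_) (crit_le c hc R hR hN hg hWo hU hνU n (hb n))
            intro t ht h
            apply ht
            refine ⟨fun s hs => ?_, h.2⟩
            rw [List.mem_ofFn'] at hs
            obtain ⟨j, rfl⟩ := hs
            exact h.1 j
        _ = ENNReal.ofReal (((n + 1 : ℕ) : ℝ) * N * (C * ρ ^ (n + 1 - 1))) := by
            rw [Finset.sum_const, Finset.card_univ, Fintype.card_fin, nsmul_eq_mul,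
              Nat.add_sub_cancel, mul_assoc,
              ENNReal.ofReal_mul (p := ((n + 1 : ℕ) : ℝ)) (by positivity),
              ENNReal.ofReal_mul (p := (N : ℝ)) (by positivity), ENNReal.ofReal_natCast,
              ENNReal.ofReal_natCast]
  -- absorb the linear factor
  set σ : ℝ := Real.sqrt ρ with hσ
  have hσ0 : 0 < σ := Real.sqrt_pos.2 hρ
  have hσ1 : σ < 1 := by
    rw [hσ, Real.sqrt_lt' one_pos]; simpa using hρ1
  have hσ2 : σ * σ = ρ := Real.mul_self_sqrt hρ.le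
  have hlim : Tendsto (fun n : ℕ => (n : ℝ) * σ ^ n) atTop (𝓝 0) :=
    tendsto_self_mul_const_pow_of_lt_one hσ0.le hσ1
  obtain ⟨B, hB⟩ := hlim.bddAbove_range
  have hB0 : ∀ n : ℕ, (n : ℝ) * σ ^ n ≤ B := fun n => hB ⟨n, rfl⟩
  have hBn : 0 ≤ B := by simpa using hB0 0
  refine ⟨(B + 1) * (N + 1) * (C * ρ⁻¹), σ, by positivity, hσ0, hσ1,
    fun n => (hbad n).trans ?_⟩
  apply ENNReal.ofReal_le_ofReal
  have h1 : ρ ^ n = σ ^ n * σ ^ n := by rw [← mul_pow, hσ2]
  have h0 : ρ ^ (n - 1) ≤ ρ⁻¹ * ρ ^ n := by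
    obtain _ | n := n
    · simp only [Nat.zero_sub, pow_zero, mul_one]
      exact (one_le_inv₀ hρ).2 hρ1.le
    · rw [Nat.add_sub_cancel, pow_succ, mul_comm (ρ ^ n), ← mul_assoc, inv_mul_cancel₀ hρ.ne',
        one_mul]
  calc (n : ℝ) * N * (C * ρ ^ (n - 1)) ≤ (n : ℝ) * N * (C * (ρ⁻¹ * ρ ^ n)) := by gcongr
    _ = (n * σ ^ n) * N * (C * ρ⁻¹) * σ ^ n := by rw [h1]; ring
    _ ≤ (B + 1) * (N + 1) * (C * ρ⁻¹) * σ ^ n := by
        gcongr
        · linarith [hB0 n]
        · linarith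

end

/-! ### Almost sure statement -/

/-- The first `n` coordinates of the infinite product are distributed as the finite product. -/
theorem infinitePi_first [MeasurableSpace Λ] (ν : Measure Λ) [IsProbabilityMeasure ν] (n : ℕ) :
    (Measure.infinitePi fun _ : ℕ => ν).map (fun t (i : Fin n) => t i) =
      Measure.pi fun _ : Fin n => ν := by
  symm
  refine Measure.pi_eq fun s hs => ?_
  have hm : Measurable (fun (t : ℕ → Λ) (i : Fin n) => t i) :=
    measurable_pi_lambda _ fun i => measurable_pi_apply _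
  rw [Measure.map_apply hm (MeasurableSet.univ_pi hs)]
  set S : ℕ → Set Λ := fun k => if h : k < n then s ⟨k, h⟩ else univ with hS
  have hpre : (fun (t : ℕ → Λ) (i : Fin n) => t i) ⁻¹' (Set.univ.pi s) =
      Set.pi (Finset.range n : Finset ℕ) S := by
    ext t
    simp only [mem_preimage, Set.mem_pi, mem_univ, true_imp_iff, Finset.coe_range, mem_Iio]
    constructor
    · intro h k hk
      rw [hS]
      simp only [hk, dite_true]
      exact h ⟨k, hk⟩
    · intro h i
      have := h i i.2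
      rw [hS] at this
      simpa using this
  rw [hpre, Measure.infinitePi_pi (μ := fun _ : ℕ => ν) (s := Finset.range n) (t := S),
    Finset.prod_range]
  · refine Finset.prod_congr rfl fun i _ => ?_
    simp [hS]
  · intro k hk
    have hk' : k < n := Finset.mem_range.1 hk
    rw [hS]
    simp only [hk', dite_true]
    exact hs _

/-- Borel–Cantelli. -/
theorem ae_main [MeasurableSpace Λ] (ν : Measure Λ) [IsProbabilityMeasure ν]
    (P : (n : ℕ) → (Fin n → Λ) → Prop)
    {C ρ : ℝ} (hC : 0 < C) (hρ : 0 < ρ) (hρ1 : ρ < 1)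
    (h : ∀ n : ℕ, Measure.pi (fun _ : Fin n => ν) {t | ¬ P n t} ≤ ENNReal.ofReal (C * ρ ^ n)) :
    ∀ᵐ t ∂(Measure.infinitePi fun _ : ℕ => ν), ∀ᶠ n : ℕ in atTop, P n (fun i => t i) := by
  have h1 : ∀ n : ℕ, (Measure.infinitePi fun _ : ℕ => ν) {t | ¬ P n (fun i => t i)} ≤
      ENNReal.ofReal (C * ρ ^ n) := by
    intro n
    have hm : Measurable (fun (t : ℕ → Λ) (i : Fin n) => t i) :=
      measurable_pi_lambda _ fun i => measurable_pi_apply _
    calc (Measure.infinitePi fun _ : ℕ => ν) {t | ¬ P n (fun i => t i)} ≤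
        ((Measure.infinitePi fun _ : ℕ => ν).map (fun t (i : Fin n) => t i)) {t | ¬ P n t} :=
          Measure.le_map_apply hm.aemeasurable _
      _ ≤ _ := by rw [infinitePi_first]; exact h n
  have h2 : ∑' n : ℕ, (Measure.infinitePi fun _ : ℕ => ν) {t | ¬ P n (fun i => t i)} ≠ ∞ := by
    refine ne_top_of_le_ne_top ?_ (ENNReal.tsum_le_tsum h1)
    have hs : Summable fun n : ℕ => C * ρ ^ n :=
      (summable_geometric_of_lt_one hρ.le hρ1).mul_left C
    rw [← ENNReal.ofReal_tsum_of_nonneg (fun n => by positivity) hs]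
    exact ENNReal.ofReal_ne_top
  have h3 := ae_eventually_notMem h2
  filter_upwards [h3] with t ht
  filter_upwards [ht] with n hn
  by_contra hP
  exact hn hP

end Pool.Agent.Q77.RR
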