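import Mathlib
import Pool.Agent.Q77.Semi.Base
import Pool.Agent.Q77.RR.Abs

/-! Random compositions of rational maps. -/

set_option autoImplicit false

open Topology Filter Metric Set MeasureTheory
open scoped OnePoint ENNReal

namespace Pool.Agent.Q77.RR

open Pool.Agent.H790R3.RB Pool.Agent.Q77.Semi

variable {d : ℕ}

theorem hF_cont : Continuous (fun q : CV d × (ℂ × ℂ) => hF q.1 q.2) := by
  unfold hF; fun_prop

theorem wr_cont : Continuous (fun q : CV d × (ℂ × ℂ) => wr q.1 q.2) := by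
  unfold wr; fun_prop

/-- the composition of a word, in homogeneous coordinates -/
noncomputable def lf (l : List (CV d)) (p : ℂ × ℂ) : ℂ × ℂ := l.foldl (fun p t => hF t p) p

theorem lf_append (l l' : List (CV d)) (p : ℂ × ℂ) : lf (l ++ l') p = lf l' (lf l p) := by
  unfold lf; rw [List.foldl_append]

theorem lf_snoc (l : List (CV d)) (t : CV d) : lf (l ++ [t]) = hF t ∘ lf l := by
  funext p; rw [lf_append]; rfl

open ISO in
theorem lf_GM (l : List (CV d)) (hl : ∀ t ∈ l, ND t) : GM (d ^ l.length) (lf l) := by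
  induction l using List.reverseRecOn with
  | nil =>
    rw [List.length_nil, pow_zero]
    exact GM.id
  | append_singleton l t ih =>
    have hG := ih fun s hs => hl s (List.mem_append_left _ hs)
    set n := l.length with hn
    rw [List.length_append, List.length_singleton, lf_snoc, ← hn]
    have hmon : ∀ j : Fin (d + 1), BF (d * d ^ n)
        (fun p => (lf l p).1 ^ (j : ℕ) * (lf l p).2 ^ (d - (j : ℕ))) := by
      intro j
      have h1 := (hG.h1.pow (j : ℕ)).mul (hG.h2.pow (d - (j : ℕ)))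
      have h2 : (j : ℕ) * d ^ n + (d - (j : ℕ)) * d ^ n = d * d ^ n := by
        rw [← add_mul]
        congr 1
        have := j.2
        omega
      rw [h2] at h1
      exact h1
    rw [pow_succ, mul_comm]
    refine ⟨?_, ?_, ?_⟩
    · exact BF.sum Finset.univ (fun j _ => (hmon j).smul (t (0, j)))
    · exact BF.sum Finset.univ (fun j _ => (hmon j).smul (t (1, j)))
    · intro p hp
      exact hG.nd p (hl t (by simp) _ hp)

attribute [local irreducible] hF wr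

/-- the action on the sphere -/
noncomputable def G (t : CV d) (z : OnePoint ℂ) : OnePoint ℂ := sf (hF t) z

theorem pr_smul' {a : ℂ} (ha : a ≠ 0) (p : ℂ × ℂ) : pr (a • p) = pr p := by
  by_cases hp : p = 0
  · rw [hp, smul_zero]
  · exact pr_smul ha hp

theorem hc_coe (z : ℂ) : pr ((z, 1) : ℂ × ℂ) = (z : OnePoint ℂ) := by
  rw [SP.pr_ne (by simp)]; simp

theorem pc {x : CV d} {p : ℂ × ℂ} (h : hF x p ≠ 0) :
    Tendsto (fun q : CV d × (ℂ × ℂ) => pr (hF q.1 q.2)) (𝓝 x ×ˢ 𝓝 p) (𝓝 (pr (hF x p))) := by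
  rw [← nhds_prod_eq]
  have h1 : Tendsto (fun q : CV d × (ℂ × ℂ) => hF q.1 q.2) (𝓝 (x, p)) (𝓝 (hF x p)) :=
    hF_cont.tendsto (x, p)
  exact (SP.continuousAt_pr h).tendsto.comp h1

theorem pc1 {x : CV d} {p : ℂ × ℂ} (h : hF x p ≠ 0) :
    Tendsto (fun y : CV d => pr (hF y p)) (𝓝 x) (𝓝 (pr (hF x p))) := by
  have h1 : Tendsto (fun y : CV d => (y, p)) (𝓝 x) (𝓝 x ×ˢ 𝓝 p) :=
    Tendsto.prodMk tendsto_id tendsto_const_nhds
  have h2 : Tendsto (fun y : CV d => hF y p) (𝓝 x) (𝓝 (hF x p)) := by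
    have h3 : Continuous (fun y : CV d => hF y p) := hF_cont.comp (Continuous.prodMk_left p)
    exact h3.tendsto x
  exact Tendsto.comp (g := pr) (SP.continuousAt_pr h) h2

theorem G_coe (t : CV d) (z : ℂ) : G t (z : OnePoint ℂ) = pr (hF t (z, 1)) := rfl

theorem G_inf (t : CV d) : G t OnePoint.infty = pr (hF t (1, 0)) := rfl

/-- joint continuity -/
theorem G_cont {x : CV d} (hx : ND x) (z : OnePoint ℂ) :
    ContinuousAt (fun q : OnePoint ℂ × CV d => G q.2 q.1) (z, x) := by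
  have hnd : ∀ p : ℂ × ℂ, p ≠ 0 → hF x p ≠ 0 := fun p hp h => hp (hx p h)
  induction z using OnePoint.rec with
  | infty =>
    have h0 : ((1, 0) : ℂ × ℂ) ≠ 0 := fun h => one_ne_zero (congrArg Prod.fst h)
    unfold ContinuousAt
    simp only
    rw [G_inf, nhds_prod_eq, OnePoint.nhds_infty_eq, Filter.sup_prod, tendsto_sup]
    constructor
    · rw [coclosedCompact_eq_cocompact, ← Metric.cobounded_eq_cocompact, Filter.prod_map_left,
        tendsto_map'_iff]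
      have h1 : Tendsto (fun q : ℂ × CV d => ((q.2, (1, q.1⁻¹)) : CV d × (ℂ × ℂ)))
          (Bornology.cobounded ℂ ×ˢ 𝓝 x) (𝓝 x ×ˢ 𝓝 (1, 0)) := by
        have h2 : Tendsto (fun q : ℂ × CV d => q.1⁻¹) (Bornology.cobounded ℂ ×ˢ 𝓝 x) (𝓝 0) :=
          tendsto_inv₀_cobounded.comp tendsto_fst
        exact (tendsto_snd.prodMk (tendsto_const_nhds.prodMk_nhds h2))
      have h4 := (pc (hnd _ h0)).comp h1
      refine Tendsto.congr' ?_ h4
      have h3 : ∀ᶠ q : ℂ × CV d in Bornology.cobounded ℂ ×ˢ 𝓝 x, q.1 ≠ 0 :=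
        tendsto_fst.eventually (Bornology.eventually_ne_cobounded (0 : ℂ))
      filter_upwards [h3] with q hq
      show pr (hF q.2 (1, q.1⁻¹)) = pr (hF q.2 (q.1, 1))
      have e : ((q.1, 1) : ℂ × ℂ) = q.1 • ((1, q.1⁻¹) : ℂ × ℂ) := by
        ext
        · simp
        · simp [hq]
      rw [e, hF_smul, pr_smul' (pow_ne_zero _ hq)]
    · rw [Filter.pure_prod, tendsto_map'_iff]
      have h2 := pc1 (hnd _ h0)
      simp only [← G_inf] at h2
      exact h2
  | coe z =>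
    have h0 : ((z, 1) : ℂ × ℂ) ≠ 0 := pt_ne z
    unfold ContinuousAt
    simp only
    rw [nhds_prod_eq, OnePoint.nhds_coe_eq, Filter.prod_map_left, tendsto_map'_iff, G_coe]
    have h1 : Tendsto (fun q : ℂ × CV d => ((q.2, (q.1, 1)) : CV d × (ℂ × ℂ)))
        (𝓝 z ×ˢ 𝓝 x) (𝓝 x ×ˢ 𝓝 (z, 1)) :=
      tendsto_snd.prodMk (tendsto_fst.prodMk_nhds tendsto_const_nhds)
    have h2 := (pc (hnd _ h0)).comp h1
    exact h2

/-! ### Words -/

theorem lf_Hm (hd : 1 ≤ d) (l : List (CV d)) (hl : ∀ t ∈ l, ND t) : Hm (lf l) := by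
  induction l using List.reverseRecOn with
  | nil => exact ⟨differentiable_id, ⟨1, le_rfl, fun a p => by simp [lf]⟩, fun p hp => hp⟩
  | append_singleton l t ih =>
    rw [lf_snoc]
    exact (Hm_hF hd (hl t (by simp))).comp (ih fun s hs => hl s (List.mem_append_left _ hs))

theorem act_eq (hd : 1 ≤ d) (l : List (CV d)) (hl : ∀ t ∈ l, ND t) : act G l = sf (lf l) := by
  induction l using List.reverseRecOn with
  | nil => funext z; exact (pr_hc' z).symm
  | append_singleton l t ih =>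
    funext z
    have hl' : ∀ s ∈ l, ND s := fun s hs => hl s (List.mem_append_left _ hs)
    rw [act_snoc, lf_snoc, sf_comp (Hm_hF hd (hl t (by simp))) (lf_Hm hd l hl'), ih hl']
    rfl

theorem act_cont' (hd : 1 ≤ d) (l : List (CV d)) (hl : ∀ t ∈ l, ND t) : Continuous (act G l) := by
  rw [act_eq hd l hl]
  exact sf_cont (lf_Hm hd l hl)

/-! ### Reachable points -/

theorem cvU {U : Set (CV d)} (hU : IsOpen U) {t : CV d} (ht : t ∈ U) :
    ∃ δ : ℝ, 0 < δ ∧ δ ≤ 1 ∧ ∀ K : LM, ‖K - 1‖ < δ → cv K t ∈ U := by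
  obtain ⟨r, hr, hrU⟩ := Metric.isOpen_iff.1 hU t ht
  refine ⟨min (r / (‖t‖ + 1)) 1, lt_min (by positivity) one_pos, min_le_right _ _,
    fun K hK => hrU ?_⟩
  rw [mem_ball, dist_eq_norm, pi_norm_lt_iff hr]
  rintro ⟨i, j⟩
  refine (cv_close K t i j).trans_lt ?_
  have h1 := hK.trans_le (min_le_left _ _)
  rw [lt_div_iff₀ (by positivity)] at h1
  nlinarith [norm_nonneg (K - 1), norm_nonneg t]

theorem G_cv (t : CV d) (K : LM) (z : OnePoint ℂ) : G (cv K t) z = pr (K (hF t (hc z))) := by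
  show pr (hF (cv K t) (hc z)) = _
  rw [hF_cv]

/-- the points which are reached from `x` -/
def Re (U : Set (CV d)) (x : OnePoint ℂ) : Set (OnePoint ℂ) :=
  {y | ∃ l : List (CV d), l ≠ [] ∧ (∀ t ∈ l, t ∈ U) ∧ act G l x = y}

theorem Re_open {U : Set (CV d)} (hU : IsOpen U) (hUnd : ∀ t ∈ U, ND t) (x : OnePoint ℂ) :
    IsOpen (Re U x) := by
  rw [isOpen_iff_mem_nhds]
  rintro y ⟨l, hl, hl2, rfl⟩
  obtain ⟨l', t, rfl⟩ := (List.eq_nil_or_concat' l).resolve_left hl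
  rw [act_snoc]
  have htU : t ∈ U := hl2 t (by simp)
  obtain ⟨δ, hδ, -, hcv⟩ := cvU hU htU
  have hq : hF t (hc (act G l' x)) ≠ 0 := fun h => hc_ne _ (hUnd t htU _ h)
  refine mem_of_superset (move hq hδ) ?_
  rintro y ⟨K, hK, rfl⟩
  refine ⟨l' ++ [cv K t], by simp, ?_, by rw [act_snoc, G_cv]⟩
  intro s hs
  rw [List.mem_append, List.mem_singleton] at hs
  rcases hs with hs | rfl
  · exact hl2 s (List.mem_append_left _ hs)
  · exact hcv K hK

theorem Re_step {U : Set (CV d)} {x y : OnePoint ℂ} (hy : y ∈ Re U x) {t : CV d} (ht : t ∈ U) :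
    G t y ∈ Re U x := by
  obtain ⟨l, hl, hl2, rfl⟩ := hy
  refine ⟨l ++ [t], by simp, ?_, by rw [act_snoc]⟩
  intro s hs
  rw [List.mem_append, List.mem_singleton] at hs
  rcases hs with hs | rfl
  · exact hl2 s hs
  · exact ht

/-- **Nontransitive systems have a trap into which every point can be steered.** -/
theorem trap {U : Set (CV d)} (hU : IsOpen U) (hUn : U.Nonempty) (hUnd : ∀ t ∈ U, ND t)
    {x₀ : OnePoint ℂ} (hx₀ : Re U x₀ ≠ univ) :
    ∃ W : Set (OnePoint ℂ), IsOpen W ∧ W ≠ univ ∧ (∀ z ∈ W, ∀ t ∈ U, G t z ∈ W) ∧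
      ∀ x, ∃ l : List (CV d), (∀ t ∈ l, t ∈ U) ∧ act G l x ∈ W := by
  obtain ⟨t₀, ht₀⟩ := hUn
  set W₀ := Re U x₀ with hW₀
  have hWo : IsOpen W₀ := Re_open hU hUnd x₀
  have hfirst : ∀ x, G t₀ x ∈ Re U x := fun x => ⟨[t₀], by simp, by simpa using ht₀, rfl⟩
  set C : Set (OnePoint ℂ) := {x | Disjoint (Re U x) W₀} with hC
  set T : Set (OnePoint ℂ) := ⋃ x ∈ C, Re U x with hT
  have hTo : IsOpen T := isOpen_biUnion fun x _ => Re_open hU hUnd x
  have hTd : Disjoint T W₀ := by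
    rw [hT, Set.disjoint_iUnion₂_left]
    intro x hx
    exact hx
  refine ⟨W₀ ∪ T, hWo.union hTo, ?_, ?_, ?_⟩
  · intro h
    have h1 : W₀ᶜ = T := by
      ext z
      constructor
      · intro hz
        have : z ∈ W₀ ∪ T := by rw [h]; trivial
        exact this.resolve_left hz
      · intro hz hz'
        exact Set.disjoint_left.1 hTd hz hz'
    have h2 : IsClopen W₀ := ⟨by rw [← isOpen_compl_iff, h1]; exact hTo, hWo⟩
    rcases isClopen_iff.1 h2 with h3 | h3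
    · have := hfirst x₀
      rw [← hW₀, h3] at this
      exact this
    · exact hx₀ h3
  · rintro z (hz | hz) t ht
    · exact Or.inl (Re_step hz ht)
    · right
      rw [hT, mem_iUnion₂] at hz ⊢
      obtain ⟨x, hx, hz⟩ := hz
      exact ⟨x, hx, Re_step hz ht⟩
  · intro x
    by_cases hx : x ∈ C
    · refine ⟨[t₀], by simpa using ht₀, Or.inr ?_⟩
      rw [hT, mem_iUnion₂]
      exact ⟨x, hx, hfirst x⟩
    · rw [hC, mem_ofPred_eq, Set.not_disjoint_iff] at hx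
      obtain ⟨y, ⟨l, h1, h2, h3⟩, hy⟩ := hx
      exact ⟨l, h2, Or.inl (h3 ▸ hy)⟩

/-! ### Critical points -/

/-- the unit sphere of `ℂ × ℂ` -/
abbrev S3 : Type := Metric.sphere (0 : ℂ × ℂ) 1

theorem S3_ne (p : S3) : (p : ℂ × ℂ) ≠ 0 := by
  have := p.2
  rw [mem_sphere_zero_iff_norm] at this
  intro h
  rw [h, norm_zero] at this
  exact zero_ne_one this

theorem c_cont : Continuous (fun p : S3 => pr (p : ℂ × ℂ)) := by
  rw [continuous_iff_continuousAt]
  intro p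
  exact ContinuousAt.comp (f := fun p : S3 => (p : ℂ × ℂ)) (g := pr)
    (SP.continuousAt_pr (S3_ne p)) continuous_subtype_val.continuousAt

theorem crit_rep (hd : 2 ≤ d) {x : CV d} (hx : ND x) {c : OnePoint ℂ} (hc' : ¬ LI (G x) c) :
    ∃ p : S3, wr x (p : ℂ × ℂ) = 0 ∧ pr (p : ℂ × ℂ) = c := by
  have hn : (‖hc c‖⁻¹ : ℂ) ≠ 0 := by
    have := hc_ne c
    simpa using this
  have h1 : wr x (hc c) = 0 := by
    by_contra hne
    apply hc'
    obtain ⟨U, hU, hUi⟩ := INJL SP WR d x (hc c) hd hx (hc_ne c) hne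
    rw [pr_hc'] at hU
    exact ⟨U, hU, hUi⟩
  refine ⟨⟨(‖hc c‖⁻¹ : ℂ) • hc c, ?_⟩, ?_, ?_⟩
  · rw [mem_sphere_zero_iff_norm, norm_smul, norm_inv, Complex.norm_real, norm_norm,
      inv_mul_cancel₀ (norm_ne_zero_iff.2 (hc_ne c))]
  · simp only
    rw [(WR d x hd).1, h1, mul_zero]
  · simp only
    rw [pr_smul hn (hc_ne c), pr_hc']

theorem crit_card (hd : 2 ≤ d) {x : CV d} (hx : ND x) :
    ∃ V : Finset (OnePoint ℂ), V.card ≤ 2 * d ∧
      ∀ p : S3, wr x (p : ℂ × ℂ) = 0 → pr (p : ℂ × ℂ) ∈ V := by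
  classical
  obtain ⟨ζ₀, hζ₀⟩ := wr_exists hd hx
  obtain ⟨hhom, ⟨W, hWd, hW, -⟩, -⟩ := WR d x hd
  have hW0 : W ≠ 0 := by
    rintro rfl
    rw [← hW] at hζ₀
    simp at hζ₀
  refine ⟨insert OnePoint.infty (W.roots.toFinset.image (fun z : ℂ => (z : OnePoint ℂ))), ?_, fun p hp => ?_⟩
  · refine (Finset.card_insert_le _ _).trans ?_
    have h1 : (W.roots.toFinset.image (fun z : ℂ => (z : OnePoint ℂ))).card ≤ 2 * d - 2 :=
      Finset.card_image_le.trans ((Multiset.toFinset_card_le _).trans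
        ((Polynomial.card_roots' W).trans hWd))
    omega
  · rw [Finset.mem_insert]
    by_cases h2 : (p : ℂ × ℂ).2 = 0
    · left
      exact SP.pr_zero h2
    · right
      rw [SP.pr_ne h2]
      apply Finset.mem_image_of_mem
      rw [Multiset.mem_toFinset, Polynomial.mem_roots hW0, Polynomial.IsRoot.def, hW]
      have e : ((p : ℂ × ℂ).1 / (p : ℂ × ℂ).2, (1 : ℂ)) = ((p : ℂ × ℂ).2)⁻¹ • (p : ℂ × ℂ) := by
        ext
        · simp only [Prod.smul_fst, smul_eq_mul]; field_simp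
        · simp only [Prod.smul_snd, smul_eq_mul]; field_simp
      rw [e, hhom, hp, mul_zero]

theorem stage' (hd : 1 ≤ d) (l : List (CV d)) (hl : ∀ t ∈ l, ND t) (c : OnePoint ℂ)
    (hc' : ¬ LI (act G l) c) :
    ∃ (i : ℕ) (hi : i < l.length), ¬ LI (G l[i]) (act G (l.take i) c) := by
  induction l generalizing c with
  | nil => exact absurd ⟨univ, univ_mem, fun a _ b _ hab => hab⟩ hc'
  | cons t l ih =>
    by_cases h1 : LI (G t) c
    · have hct : Continuous (G t) := sf_cont (Hm_hF hd (hl t (by simp)))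
      have h2 : ¬ LI (act G l) (G t c) := fun h2 => hc' (h1.comp hct h2)
      obtain ⟨i, hi, h3⟩ := ih (fun s hs => hl s (List.mem_cons_of_mem _ hs)) (G t c) h2
      exact ⟨i + 1, by simpa using hi, h3⟩
    · exact ⟨0, by simp, h1⟩

theorem act_mem {U : Set (CV d)} {W : Set (OnePoint ℂ)} (hW : ∀ z ∈ W, ∀ t ∈ U, G t z ∈ W)
    (l : List (CV d)) (hl : ∀ t ∈ l, t ∈ U) {z : OnePoint ℂ} (hz : z ∈ W) : act G l z ∈ W := by
  induction l generalizing z with
  | nil => exact hz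
  | cons t l ih =>
    rw [act_cons]
    exact ih (fun s hs => hl s (List.mem_cons_of_mem _ hs)) (hW z hz t (hl t (by simp)))

/-- **Deterministic part.** -/
theorem det (hd : 2 ≤ d) {U : Set (CV d)} (hU : IsOpen U) (hUnd : ∀ t ∈ U, ND t)
    {W : Set (OnePoint ℂ)} (hWo : IsOpen W) (hWu : W ≠ univ) (hW : ∀ z ∈ W, ∀ t ∈ U, G t z ∈ W)
    (l : List (CV d)) (hl : ∀ t ∈ l, t ∈ U)
    (h : ∀ (i : ℕ) (hi : i < l.length), ∀ p : S3, wr l[i] (p : ℂ × ℂ) = 0 →
      act G (l.drop i ++ l.take i) (pr (p : ℂ × ℂ)) ∈ W) :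
    ∀ c, ¬ LI (act G l) c → Att (act G l) c := by
  intro c hc'
  have hd1 : 1 ≤ d := by omega
  have hlnd : ∀ t ∈ l, ND t := fun t ht => hUnd t (hl t ht)
  obtain ⟨i, hi, h1⟩ := stage' hd1 l hlnd c hc'
  obtain ⟨p, hp, hpc⟩ := crit_rep hd (hlnd _ (List.getElem_mem hi)) h1
  have h2 := h i hi p hp
  rw [hpc] at h2
  have hl0 : l ≠ [] := by
    rintro rfl
    simp at hi
  have hdrop : ∀ t ∈ l.drop i, t ∈ U := fun t ht => hl t (List.mem_of_mem_drop ht)
  have e1 : ∀ z, act G l z = act G (l.drop i) (act G (l.take i) z) := by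
    intro z
    rw [← act_append, List.take_append_drop]
  rw [act_append, ← e1] at h2
  have h3 := act_mem hW (l.drop i) hdrop h2
  rw [← e1] at h3
  -- robustness
  obtain ⟨l', t₀, hlt⟩ := (List.eq_nil_or_concat' l).resolve_left hl0
  have ht₀ : t₀ ∈ U := hl t₀ (by rw [hlt]; simp)
  have hl' : ∀ t ∈ l', t ∈ U := fun t ht => hl t (by rw [hlt]; simp [ht])
  obtain ⟨δ, hδ, hδ1, hcv⟩ := cvU hU ht₀
  have hGm : Hm (lf l) := lf_Hm hd1 l hlnd
  have hrob : ∀ z ∈ W, ∀ L : LM, ‖L - 1‖ < δ → st (lf l) L z ∈ W := by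
    intro z hz L hL
    have h4 := act_mem hW (l' ++ [cv L t₀]) (by
      intro s hs
      rw [List.mem_append, List.mem_singleton] at hs
      rcases hs with hs | rfl
      · exact hl' s hs
      · exact hcv L hL) hz
    rw [act_snoc, act_eq hd1 l' (fun t ht => hUnd t (hl' t ht))] at h4
    have h5 : G (cv L t₀) (sf (lf l') z) = st (lf l) L z := by
      show sf (hF (cv L t₀)) (pr (lf l' (hc z))) = pr (L (lf l (hc z)))
      rw [sf_pr (Hm_hF hd1 (hUnd _ (hcv L hL)))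
        ((lf_Hm hd1 l' (fun t ht => hUnd t (hl' t ht))).nd _ (hc_ne z)), hF_cv, hlt, lf_snoc]
      rfl
    rw [h5] at h4
    exact h4
  obtain ⟨m, q, B, z₀, hq, hB, hz₀, -, hxB, hfix, hlim, -⟩ := eh hGm hWo hδ hδ1 hrob hWu h3
  rw [← act_eq hd1 l hlnd] at hxB hfix hlim
  refine att_of (act_cont' hd1 l hlnd) (m := m + 2) hq hB hz₀ hfix hlim ?_
  rw [Function.iterate_add_apply]
  exact hxB

theorem wr_ev (t : CV d) (p : S3) (hp : ¬ wr t (p : ℂ × ℂ) = 0) :
    ∀ᶠ q : S3 × CV d in 𝓝 (p, t), ¬ wr q.2 (q.1 : ℂ × ℂ) = 0 := by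
  have h0 : Continuous (fun q : S3 × CV d => ((q.2, (q.1 : ℂ × ℂ)) : CV d × (ℂ × ℂ))) := by
    fun_prop
  have h1 : Continuous (fun q : S3 × CV d => wr q.2 (q.1 : ℂ × ℂ)) :=
    Continuous.comp (g := fun q : CV d × (ℂ × ℂ) => wr q.1 q.2)
      (f := fun q : S3 × CV d => ((q.2, (q.1 : ℂ × ℂ)) : CV d × (ℂ × ℂ))) wr_cont h0
  have h2 : Tendsto (fun q : S3 × CV d => wr q.2 (q.1 : ℂ × ℂ)) (𝓝 (p, t))
      (𝓝 (wr t (p : ℂ × ℂ))) := h1.tendsto (p, t)
  exact h2.eventually_ne hp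

/-- **Dichotomy.** -/
theorem main (hd : 2 ≤ d) {U : Set (CV d)} (hU : IsOpen U) (hUn : U.Nonempty)
    (hUnd : ∀ t ∈ U, ND t) {x₀ : OnePoint ℂ} (hx₀ : Re U x₀ ≠ univ)
    (ν : Measure (CV d)) [IsProbabilityMeasure ν] (hνU : ν Uᶜ = 0)
    (hνo : ∀ V : Set (CV d), IsOpen V → V.Nonempty → V ⊆ U → ν V ≠ 0) :
    ∃ C ρ : ℝ, 0 < C ∧ 0 < ρ ∧ ρ < 1 ∧ ∀ n : ℕ,
      Measure.pi (fun _ : Fin n => ν) {t | ¬ ((∀ i, t i ∈ U) ∧
        ∀ c, ¬ LI (act G (List.ofFn t)) c → Att (act G (List.ofFn t)) c)} ≤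
      ENNReal.ofReal (C * ρ ^ n) := by
  obtain ⟨W, hWo, hWu, hW, hst⟩ := trap hU hUn hUnd hx₀
  have hg : ∀ t ∈ U, ∀ x, ContinuousAt (fun q : OnePoint ℂ × CV d => G q.2 q.1) (x, t) :=
    fun t ht x => G_cont (hUnd t ht) x
  obtain ⟨C, ρ, hC, hρ, hρ1, hun⟩ := un_exp (g := G) (W := W) (ν := ν) hg hWo hU hνU hνo hW hst
  obtain ⟨C', ρ', hC', hρ', hρ'1, h⟩ := union_le (g := G) (W := W) (ν := ν) (N := 2 * d)
    (fun p : S3 => pr (p : ℂ × ℂ)) c_cont (fun t p => wr t (p : ℂ × ℂ) = 0)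
    (fun t _ p hp => wr_ev t p hp)
    (fun t ht => crit_card hd (hUnd t ht)) hg hWo hU hνU hC hρ hρ1 hun
  refine ⟨C', ρ', hC', hρ', hρ'1, fun n => le_trans (measure_mono ?_) (h n)⟩
  intro t ht hgood
  apply ht
  refine ⟨hgood.1, det hd hU hUnd hWo hWu hW _ ?_ ?_⟩
  · intro s hs
    rw [List.mem_ofFn'] at hs
    obtain ⟨j, rfl⟩ := hs
    exact hgood.1 j
  · intro i hi p hp
    rw [List.length_ofFn] at hi
    have h2 := hgood.2 ⟨i, hi⟩ p (by simpa using hp)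
    exact h2

end Pool.Agent.Q77.RR
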