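import Mathlib
import Pool.Agent.Q77.RR.Rat

/-! Small neighbourhoods of a rational map with an attracting cycle do not act transitively. -/

set_option autoImplicit false

open Topology Filter Metric Set MeasureTheory
open scoped OnePoint

namespace Pool.Agent.Q77.RR

open Pool.Agent.H790R3.RB Pool.Agent.Q77.Semi

variable {d : ℕ}

attribute [local irreducible] hF wr

theorem act_const (x : CV d) (n : ℕ) (z : OnePoint ℂ) :
    act G (List.ofFn fun _ : Fin n => x) z = (G x)^[n] z := by
  induction n generalizing z with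
  | zero => rw [List.ofFn_zero]; rfl
  | succ n ih =>
    rw [List.ofFn_succ, act_cons, Function.iterate_succ_apply]
    exact ih (G x z)

/-- words of length `n` near `x₀` send a compact set into an open set -/
theorem near_word {x₀ : CV d} (hx₀ : ND x₀) (n : ℕ) {K O : Set (OnePoint ℂ)} (hK : IsCompact K)
    (hO : IsOpen O) (hKO : ∀ w ∈ K, (G x₀)^[n] w ∈ O) :
    ∀ᶠ ε : ℝ in 𝓝[>] 0, ∀ l : List (CV d), l.length = n → (∀ t ∈ l, dist t x₀ < ε) →
      ∀ w ∈ K, act G l w ∈ O := by
  have h1 : ∀ᶠ t : Fin n → CV d in 𝓝 (fun _ => x₀), ∀ w ∈ K, act G (List.ofFn t) w ∈ O := by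
    refine hK.eventually_forall_of_forall_eventually
      (P := fun (t : Fin n → CV d) w => act G (List.ofFn t) w ∈ O) ?_
    intro w hw
    have h2 := act_cont (g := (G : CV d → OnePoint ℂ → OnePoint ℂ)) (U := {x₀})
      (fun t ht x => by rw [mem_singleton_iff.1 ht]; exact G_cont hx₀ x) n (fun _ => x₀)
      (fun _ => rfl) w
    have h3 : ContinuousAt (fun z : (Fin n → CV d) × OnePoint ℂ => (z.2, z.1))
        ((fun _ => x₀), w) := Continuous.continuousAt (by fun_prop)
    have h4 : ContinuousAt (fun z : (Fin n → CV d) × OnePoint ℂ => act G (List.ofFn z.1) z.2)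
        ((fun _ => x₀), w) :=
      ContinuousAt.comp (f := fun z : (Fin n → CV d) × OnePoint ℂ => (z.2, z.1))
        (g := fun q : OnePoint ℂ × (Fin n → CV d) => act G (List.ofFn q.2) q.1) h2 h3
    refine h4.eventually (hO.mem_nhds ?_)
    simp only
    rw [act_const]
    exact hKO w hw
  obtain ⟨δ, hδ, h2⟩ := Metric.eventually_nhds_iff.1 h1
  have h3 : Iio δ ∈ 𝓝[>] (0 : ℝ) := mem_nhdsWithin_of_mem_nhds (Iio_mem_nhds hδ)
  filter_upwards [h3, self_mem_nhdsWithin] with ε hε hε0 l hl hlt w hw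
  subst hl
  have h4 := h2 (y := fun i => l.get i) (by
    rw [dist_pi_lt_iff hδ]
    intro i
    exact (hlt _ (List.get_mem l i)).trans hε) w hw
  have e : List.ofFn (fun i => l.get i) = l := List.ofFn_get l
  rw [e] at h4
  exact h4

theorem nontrans {x₀ : CV d} (hd : 1 ≤ d) (hx₀ : ND x₀) {n : ℕ} {a : OnePoint ℂ}
    (hs : Sink (G x₀) n a) :
    ∃ ε : ℝ, 0 < ε ∧ ∀ U : Set (CV d), (∀ t ∈ U, dist t x₀ < ε) → Re U a ≠ univ := by
  classical
  obtain ⟨hn, hfix, V, hV, hun⟩ := hs
  set f := G x₀ with hf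
  have hfc : Continuous f := sf_cont (Hm_hF hd hx₀)
  have : Infinite (OnePoint ℂ) := Infinite.of_injective _ OnePoint.coe_injective
  obtain ⟨y, hy⟩ := Infinite.exists_notMem_finset
    ((Finset.range n).image fun j => f^[j] a)
  have hy' : ∀ j < n, f^[j] a ≠ y := fun j hj h =>
    hy (Finset.mem_image.2 ⟨j, Finset.mem_range.2 hj, h⟩)
  -- the first neighbourhood
  have hN1 : ∀ᶠ w in 𝓝 a, ∀ j ∈ Finset.range n, f^[j] w ≠ y := by
    rw [Filter.eventually_all_finset]
    intro j hj
    exact ((hfc.iterate j).tendsto a).eventually_ne (hy' j (Finset.mem_range.1 hj))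
  obtain ⟨k₁, hk₁⟩ := eventually_atTop.1 (hun _ hN1)
  have hV1 : ∀ᶠ w in 𝓝 a, ∀ k ∈ Finset.range k₁, ∀ j ∈ Finset.range n, f^[j] (f^[n * k] w) ≠ y := by
    rw [Filter.eventually_all_finset]
    intro k _
    have h1 : Tendsto (f^[n * k]) (𝓝 a) (𝓝 a) := by
      have h2 := (hfc.iterate (n * k)).tendsto a
      have h3 : f^[n * k] a = a := by
        rw [Function.iterate_mul]
        exact Function.iterate_fixed hfix k
      rwa [h3] at h2
    exact h1.eventually hN1
  obtain ⟨K, hKa, hKc, hKsub⟩ := exists_mem_nhds_isClosed_subset (inter_mem hV hV1)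
  have hKcomp : IsCompact K := hKc.isCompact
  have hint : interior K ∈ 𝓝 a := interior_mem_nhds.2 hKa
  obtain ⟨m, hm1, hm⟩ : ∃ m : ℕ, 1 ≤ m ∧ ∀ w ∈ V, f^[n * m] w ∈ interior K := by
    obtain ⟨m, hm⟩ := ((hun _ hint).and (eventually_ge_atTop 1)).exists
    exact ⟨m, hm.2, hm.1⟩
  set P := n * m with hP
  have hP1 : 1 ≤ P := Nat.mul_pos hn hm1
  have hi : ∀ w ∈ K, f^[P] w ∈ interior K := fun w hw => hm w (hKsub hw).1
  have hii : ∀ i : ℕ, ∀ w ∈ K, f^[i] w ∈ ({y}ᶜ : Set (OnePoint ℂ)) := by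
    intro i w hw
    have e : i = i % n + n * (i / n) := (Nat.mod_add_div i n).symm
    rw [e, Function.iterate_add_apply, mem_compl_iff, mem_singleton_iff]
    by_cases hk : i / n < k₁
    · exact (hKsub hw).2 _ (Finset.mem_range.2 hk) _ (Finset.mem_range.2 (Nat.mod_lt _ hn))
    · exact hk₁ _ (not_lt.1 hk) w (hKsub hw).1 _ (Finset.mem_range.2 (Nat.mod_lt _ hn))
  -- perturbation
  have h1 : ∀ᶠ ε : ℝ in 𝓝[>] 0, ∀ i ∈ Finset.range P, ∀ l : List (CV d), l.length = i →
      (∀ t ∈ l, dist t x₀ < ε) → ∀ w ∈ K, act G l w ∈ ({y}ᶜ : Set (OnePoint ℂ)) := by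
    rw [Filter.eventually_all_finset]
    intro i _
    exact near_word hx₀ i hKcomp isOpen_compl_singleton (hii i)
  have h2 := near_word hx₀ P hKcomp isOpen_interior hi
  obtain ⟨ε, ⟨h3, h4⟩, hε⟩ := ((h1.and h2).and self_mem_nhdsWithin).exists
  refine ⟨ε, hε, fun U hU hRe => ?_⟩
  have key : ∀ (N : ℕ) (l : List (CV d)), l.length ≤ N → (∀ t ∈ l, dist t x₀ < ε) →
      ∀ w ∈ K, act G l w ≠ y := by
    intro N
    induction N with
    | zero =>
      intro l hl hlt w hw
      exact h3 l.length (Finset.mem_range.2 (by omega)) l rfl hlt w hw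
    | succ N ih =>
      intro l hl hlt w hw
      by_cases hlP : l.length < P
      · exact h3 l.length (Finset.mem_range.2 hlP) l rfl hlt w hw
      · rw [← List.take_append_drop P l, act_append]
        refine ih (l.drop P) ?_ ?_ _ ?_
        · rw [List.length_drop]; omega
        · intro t ht
          exact hlt t (List.mem_of_mem_drop ht)
        · refine interior_subset (h4 (l.take P) ?_ ?_ w hw)
          · rw [List.length_take]; omega
          · intro t ht
            exact hlt t (List.mem_of_mem_take ht)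
  have hyR : y ∈ Re U a := by rw [hRe]; trivial
  obtain ⟨l, -, hl2, hl3⟩ := hyR
  exact key l.length l le_rfl (fun t ht => hU t (hl2 t ht)) a (mem_of_mem_nhds hKa) hl3

end Pool.Agent.Q77.RR
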