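import Mathlib
import Pool.Agent.Q77.RR.Snk

/-! Random compositions of rational maps: the final form. -/

set_option autoImplicit false

open Topology Filter Metric Set MeasureTheory
open scoped OnePoint

namespace Pool.Agent.Q77.RR

open Pool.Agent.H790R3.RB Pool.Agent.Q77.Semi

variable {d : ℕ}

/-- `f` is a rational map of degree `D` with the critical points attracted -/
def HD (D : ℕ) (f : OnePoint ℂ → OnePoint ℂ) : Prop :=
  (∃ A B : Polynomial ℂ, IsCoprime A B ∧ max A.natDegree B.natDegree = D ∧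
    (Continuous f ∧ ∀ z : ℂ, B.eval z ≠ 0 →
      f (OnePoint.some z) = OnePoint.some (A.eval z / B.eval z))) ∧
  ∀ c, ¬ LI f c → Att f c

/-- coefficient vectors of rational maps of degree `d` -/
theorem eq_of_coef (hd : 1 ≤ d) {x : CV d} (h1 : IsCoprime (pol x 0) (pol x 1))
    (h2 : max (pol x 0).natDegree (pol x 1).natDegree = d) :
    ND x ∧ ∀ f : OnePoint ℂ → OnePoint ℂ, Continuous f →
      (∀ z : ℂ, (pol x 1).eval z ≠ 0 →
        f (OnePoint.some z) = OnePoint.some ((pol x 0).eval z / (pol x 1).eval z)) → f = G x := by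
  obtain ⟨-, hPQ⟩ := PQ SP d hd
  obtain ⟨y, hy, hy0, hy1, hf⟩ := hPQ _ _ h1 h2
  have hxy : y = x := by
    funext ⟨i, j⟩
    have e : ∀ z : CV d, ∀ i j, (pol z i).coeff ((j : Fin (d + 1)) : ℕ) = z (i, j) := by
      intro z i j
      exact PQ.pol_coeff z i j
    rw [← e y i j, ← e x i j]
    fin_cases i
    · exact congrArg (fun p : Polynomial ℂ => p.coeff (j : ℕ)) hy0
    · exact congrArg (fun p : Polynomial ℂ => p.coeff (j : ℕ)) hy1
  rw [hxy] at hy hf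
  exact ⟨hy, fun f hf1 hf2 => hf f hf1 hf2⟩

theorem HD_of (hd : 2 ≤ d) (l : List (CV d)) (hl : ∀ t ∈ l, ND t)
    (h : ∀ c, ¬ LI (act G l) c → Att (act G l) c) : HD (d ^ l.length) (act G l) := by
  refine ⟨?_, h⟩
  obtain ⟨y, hy, hyG⟩ := GM_coef (lf_GM l hl)
  have hD : 1 ≤ d ^ l.length := Nat.one_le_pow _ _ (by omega)
  obtain ⟨k1, -⟩ := PQ SP (d ^ l.length) hD
  obtain ⟨g1, g2, -, -, g5⟩ := k1 y hy
  have e : act G l = sp y := by
    rw [act_eq (by omega) l hl, ← hyG]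
    rfl
  rw [e]
  exact ⟨pol y 0, pol y 1, g1, g2, (SP _ y hD hy).1, g5⟩

/-- the final estimate -/
theorem final (hd : 2 ≤ d) {U : Set (CV d)} (hU : IsOpen U) (hUn : U.Nonempty)
    (hUc : ∀ x ∈ U, IsCoprime (pol x 0) (pol x 1) ∧
      max (pol x 0).natDegree (pol x 1).natDegree = d)
    {R : CV d → OnePoint ℂ → OnePoint ℂ} (hR : ∀ x ∈ U, Continuous (R x) ∧
      ∀ z : ℂ, (pol x 1).eval z ≠ 0 →
        R x (OnePoint.some z) = OnePoint.some ((pol x 0).eval z / (pol x 1).eval z))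
    {x₀ y₀ : OnePoint ℂ}
    (hx₀ : ∀ l : List (CV d), l ≠ [] → (∀ t ∈ l, t ∈ U) → act R l x₀ ≠ y₀)
    (ν : Measure (CV d)) [IsProbabilityMeasure ν] (hνU : ν Uᶜ = 0)
    (hνo : ∀ V : Set (CV d), IsOpen V → V.Nonempty → V ⊆ U → ν V ≠ 0) :
    ∃ C ρ : ℝ, 0 < C ∧ 0 < ρ ∧ ρ < 1 ∧ ∀ n : ℕ,
      Measure.pi (fun _ : Fin n => ν) {t | ¬ HD (d ^ n) (act R (List.ofFn t))} ≤
      ENNReal.ofReal (C * ρ ^ n) := by
  have hUnd : ∀ t ∈ U, ND t := fun t ht =>
    (eq_of_coef (by omega) (hUc t ht).1 (hUc t ht).2).1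
  have hRG : ∀ t ∈ U, R t = G t := fun t ht =>
    (eq_of_coef (by omega) (hUc t ht).1 (hUc t ht).2).2 _ (hR t ht).1 (hR t ht).2
  have hact : ∀ l : List (CV d), (∀ t ∈ l, t ∈ U) → act R l = act G l := by
    intro l
    induction l with
    | nil => intro _; rfl
    | cons t l ih =>
      intro hl
      funext z
      rw [act_cons, act_cons, ih (fun s hs => hl s (List.mem_cons_of_mem _ hs)),
        hRG t (hl t (by simp))]
  have hRe : Re U x₀ ≠ univ := by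
    intro h
    have : y₀ ∈ Re U x₀ := by rw [h]; trivial
    obtain ⟨l, h1, h2, h3⟩ := this
    refine hx₀ l h1 h2 ?_
    rw [hact l h2]
    exact h3
  obtain ⟨C, ρ, hC, hρ, hρ1, h⟩ := main hd hU hUn hUnd hRe ν hνU hνo
  refine ⟨C, ρ, hC, hρ, hρ1, fun n => le_trans (measure_mono ?_) (h n)⟩
  intro t ht hgood
  apply ht
  have hl : ∀ s ∈ List.ofFn t, s ∈ U := by
    intro s hs
    rw [List.mem_ofFn'] at hs
    obtain ⟨j, rfl⟩ := hs
    exact hgood.1 j
  rw [hact _ hl]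
  have h2 := HD_of hd (List.ofFn t) (fun s hs => hUnd s (hl s hs)) hgood.2
  rw [List.length_ofFn] at h2
  exact h2

/-- maps with an attracting cycle -/
theorem final2 (hd : 2 ≤ d) {x₀ : CV d} (h1 : IsCoprime (pol x₀ 0) (pol x₀ 1))
    (h2 : max (pol x₀ 0).natDegree (pol x₀ 1).natDegree = d) {f : OnePoint ℂ → OnePoint ℂ}
    (hf1 : Continuous f) (hf2 : ∀ z : ℂ, (pol x₀ 1).eval z ≠ 0 →
        f (OnePoint.some z) = OnePoint.some ((pol x₀ 0).eval z / (pol x₀ 1).eval z))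
    {n : ℕ} {a : OnePoint ℂ} (hs : Sink f n a) :
    ∃ ε : ℝ, 0 < ε ∧ ∀ U : Set (CV d), (∀ x ∈ U, IsCoprime (pol x 0) (pol x 1) ∧
      max (pol x 0).natDegree (pol x 1).natDegree = d) →
      (∀ x ∈ U, ∀ i, ‖x i - x₀ i‖ < ε) →
      ∀ R : CV d → OnePoint ℂ → OnePoint ℂ, (∀ x ∈ U, Continuous (R x) ∧
      ∀ z : ℂ, (pol x 1).eval z ≠ 0 →
        R x (OnePoint.some z) = OnePoint.some ((pol x 0).eval z / (pol x 1).eval z)) →
      ∃ y₀ : OnePoint ℂ, ∀ l : List (CV d), l ≠ [] → (∀ t ∈ l, t ∈ U) → act R l a ≠ y₀ := by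
  obtain ⟨hnd, hG⟩ := eq_of_coef (by omega) h1 h2
  rw [hG f hf1 hf2] at hs
  obtain ⟨ε, hε, h⟩ := nontrans (by omega) hnd hs
  refine ⟨ε, hε, fun U hUc hUε R hR => ?_⟩
  have h3 : Re U a ≠ univ := h U fun t ht => by
    rw [dist_pi_lt_iff hε]
    intro i
    rw [dist_eq_norm]
    exact hUε t ht i
  obtain ⟨y₀, hy₀⟩ : ∃ y₀, y₀ ∉ Re U a := by
    by_contra hcon
    push Not at hcon
    exact h3 (eq_univ_of_forall hcon)
  refine ⟨y₀, fun l hl hlU hcon => hy₀ ⟨l, hl, hlU, ?_⟩⟩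
  have hRG : ∀ t ∈ U, R t = G t := fun t ht =>
    (eq_of_coef (by omega) (hUc t ht).1 (hUc t ht).2).2 _ (hR t ht).1 (hR t ht).2
  have hact : ∀ l : List (CV d), (∀ t ∈ l, t ∈ U) → act R l = act G l := by
    intro l
    induction l with
    | nil => intro _; rfl
    | cons t l ih =>
      intro hl
      funext z
      rw [act_cons, act_cons, ih (fun s hs => hl s (List.mem_cons_of_mem _ hs)),
        hRG t (hl t (by simp))]
  rw [← hact l hlU]
  exact hcon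

end Pool.Agent.Q77.RR
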